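import Pool.Agent.T2h60.CY.Iso2

/-!
# Infinite cyclic edge groups
-/

set_option autoImplicit false
set_option linter.unusedSectionVars false

namespace Pool.Agent.T2h60.CY

open SimpleGraph
open Subgroup
open Subgroup.Commensurable (commensurator)
open Pool.Agent.Y110.FJ
open Pool.Agent.N509.TX (AcylF)
open Pool.Agent.N431.CE (Es)

variable {C : ∀ (G : Type) [Group G], Prop}
variable {G V : Type} [Group G] [MulAction G V] {T : SimpleGraph V}

/-- the elements which commute with a power of an element commute with the element -/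
def Cp (H : Type) [Group H] : Prop := ∀ (x y : H) (k : ℕ), k ≠ 0 → x ^ k * y = y * x ^ k → x * y = y * x

theorem rel_zp {x y : G} {i j : ℤ} (hj : j ≠ 0) (h : x ^ i = y ^ j) :
    (Subgroup.zpowers x).relIndex (Subgroup.zpowers y) ≠ 0 := by
  have h1 : (Subgroup.zpowers (y ^ j)).relIndex (Subgroup.zpowers y) ≠ 0 := by
    have h2 : (Subgroup.zpowers (y ^ j)).subgroupOf (Subgroup.zpowers y) =
        Subgroup.zpowers ((⟨y, Subgroup.mem_zpowers y⟩ : Subgroup.zpowers y) ^ j) := by
      ext z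
      rw [Subgroup.mem_subgroupOf, Subgroup.mem_zpowers_iff, Subgroup.mem_zpowers_iff]
      refine exists_congr fun k => ?_
      rw [← Subtype.coe_inj]
      rfl
    rw [Subgroup.relIndex, h2]
    have h3 : Subgroup.zpowers (⟨y, Subgroup.mem_zpowers y⟩ : Subgroup.zpowers y) = ⊤ := by
      rw [eq_top_iff]
      rintro ⟨z, k, rfl⟩ _
      exact ⟨k, Subtype.ext rfl⟩
    -- the classes of the powers up to `|j|`
    intro h0
    rw [Subgroup.index_eq_zero_iff_infinite] at h0
    have hfin : Finite (↥(Subgroup.zpowers y) ⧸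
        Subgroup.zpowers ((⟨y, Subgroup.mem_zpowers y⟩ : Subgroup.zpowers y) ^ j)) := by
      refine Finite.of_surjective (fun a : Fin j.natAbs => QuotientGroup.mk
        ((⟨y, Subgroup.mem_zpowers y⟩ : Subgroup.zpowers y) ^ (a : ℕ))) ?_
      intro q
      obtain ⟨z, rfl⟩ := QuotientGroup.mk_surjective q
      have hz : z ∈ Subgroup.zpowers (⟨y, Subgroup.mem_zpowers y⟩ : Subgroup.zpowers y) := by
        rw [h3]
        trivial
      obtain ⟨k, rfl⟩ := hz
      have hk : 0 ≤ k % j := Int.emod_nonneg k hj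
      have hk2 : k % j < j.natAbs := by
        have := Int.emod_lt_abs k hj
        rwa [Int.natCast_natAbs]
      refine ⟨⟨(k % j).toNat, by omega⟩, ?_⟩
      refine QuotientGroup.eq.2 ?_
      refine ⟨k / j, ?_⟩
      show (_ ^ j) ^ (k / j) = _
      rw [← zpow_natCast, Int.toNat_of_nonneg hk, ← zpow_mul, ← zpow_neg]
      show _ = (⟨y, Subgroup.mem_zpowers y⟩ : Subgroup.zpowers y) ^ (-(k % j)) *
        (⟨y, Subgroup.mem_zpowers y⟩ : Subgroup.zpowers y) ^ k
      rw [← zpow_add]
      congr 1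
      have := Int.emod_add_mul_ediv k j
      linarith
    exact not_finite (↥(Subgroup.zpowers y) ⧸
      Subgroup.zpowers ((⟨y, Subgroup.mem_zpowers y⟩ : Subgroup.zpowers y) ^ j))
  intro h0
  refine h1 ?_
  have h4 : Subgroup.zpowers (y ^ j) ≤ Subgroup.zpowers x := by
    rw [← h]
    exact Subgroup.zpowers_le.2 ⟨i, rfl⟩
  exact Nat.eq_zero_of_zero_dvd (h0 ▸ Subgroup.relIndex_dvd_of_le_left _ h4)

/-- **infinite cyclic edge groups** -/
theorem cyc (hC : ClosedE C) (hM : ∀ (G : Type) [Group G], derivedSeries G 2 = ⊥ → C G)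
    (hA : AcylF C) (hT : T.IsTree) (hact : ∀ (g : G) (u v : V), T.Adj u v → T.Adj (g • u) (g • v))
    (hV : ∀ v : V, Cp ↥(MulAction.stabilizer G v) ∧ HQ C ↥(MulAction.stabilizer G v))
    (hE : ∀ v a, T.Adj v a → ∃ g : G, Es G v a = Subgroup.zpowers g ∧
      ∀ k : ℕ, k ≠ 0 → g ^ k = 1 → g = 1) : C G := by
  classical
  have hzp : ∀ g : G, (∀ k : ℕ, k ≠ 0 → g ^ k = 1 → g = 1) → g ≠ 1 →
      Infinite (Subgroup.zpowers g) := by
    intro g hg hg1
    refine Set.infinite_coe_iff.2 (infinite_zpowers.2 fun h => ?_)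
    obtain ⟨k, hk, h1⟩ := isOfFinOrder_iff_pow_eq_one.1 h
    exact hg1 (hg k hk.ne' h1)
  refine iso2 hC hM hA hT hact (fun v => (hV v).2.self) 1 ?_ ?_ ?_ ?_
  · intro v a b hva hvb _
    obtain ⟨x, hx, hx1⟩ := hE v a hva
    obtain ⟨y, hy, hy1⟩ := hE v b hvb
    rw [hx, hy]
    by_cases h : ∃ z, z ∈ Subgroup.zpowers x ∧ z ∈ Subgroup.zpowers y ∧ z ≠ 1
    · left
      obtain ⟨z, ⟨i, hi⟩, ⟨j, hj⟩, hz⟩ := h
      have hi : x ^ i = z := hi
      have hj : y ^ j = z := hj
      have hi0 : i ≠ 0 := by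
        rintro rfl
        rw [zpow_zero] at hi
        exact hz hi.symm
      have hj0 : j ≠ 0 := by
        rintro rfl
        rw [zpow_zero] at hj
        exact hz hj.symm
      have hxne : x ≠ 1 := by
        rintro rfl
        rw [one_zpow] at hi
        exact hz hi.symm
      have hyne : y ≠ 1 := by
        rintro rfl
        rw [one_zpow] at hj
        exact hz hj.symm
      exact ⟨hzp x hx1 hxne, hzp y hy1 hyne, rel_zp hj0 (hi.trans hj.symm),
        rel_zp hi0 (hj.trans hi.symm)⟩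
    · right
      intro F hF
      refine Finset.card_le_one.2 fun g hg g' hg' => ?_
      have h1 : ∀ g ∈ F, g = 1 := by
        intro g hg
        by_contra h1
        exact h ⟨g, (hF g hg).1, (hF g hg).2, h1⟩
      rw [h1 g hg, h1 g' hg']
  · intro v a b _ _ _ _ x hx y hy k hk h
    have h1 := (hV v).1 ⟨x, hx.1⟩ ⟨y, hy.1⟩ k hk (Subtype.ext h)
    exact congrArg Subtype.val h1
  · intro v a _ _
    exact (hV v).2.of_inj (Subgroup.inclusion inf_le_right) (Subgroup.inclusion_injective _)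
  · intro v a hva _
    left
    obtain ⟨g, hg, _⟩ := hE v a hva
    rw [hg]
    rintro x ⟨i, rfl⟩ y ⟨j, rfl⟩
    show g ^ i * g ^ j = g ^ j * g ^ i
    rw [← zpow_add, ← zpow_add, add_comm]

end Pool.Agent.T2h60.CY
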