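import Pool.Agent.T2h60.CY.Main
import Pool.Agent.N77.CP.Ind

/-!
# Groups whose subquotients by abelian normal subgroups are in the class
-/

set_option autoImplicit false
set_option linter.unusedSectionVars false

namespace Pool.Agent.T2h60.CY

open scoped commutatorElement
open Subgroup
open Pool.Agent.Y110.FJ
open Pool.Agent.N77.CP (abExt)
open Pool.Agent.R941.FJ (C_equiv C_le)

variable {C : ∀ (G : Type) [Group G], Prop}

/-- for every subgroup `A` of `H` and every abelian normal subgroup of `A` the quotient is in `C` -/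
def HQ (C : ∀ (G : Type) [Group G], Prop) (H : Type) [Group H] : Prop :=
  ∀ (A Q : Type) [Group A] [Group Q] (ι : A →* H) (π : A →* Q), Function.Injective ι →
    Function.Surjective π → (∀ x y, π x = 1 → π y = 1 → x * y = y * x) → C Q

/-- subgroups -/
theorem HQ.of_inj {H H' : Type} [Group H] [Group H'] (h : HQ C H') (i : H →* H')
    (hi : Function.Injective i) : HQ C H :=
  fun A Q _ _ ι π hι hπ hk => h A Q (i.comp ι) π (hi.comp hι) hπ hk

theorem HQ.self {H : Type} [Group H] (h : HQ C H) : C H :=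
  h H H (MonoidHom.id H) (MonoidHom.id H) Function.injective_id Function.surjective_id
    (fun x y hx hy => by
      have hx : x = 1 := hx
      have hy : y = 1 := hy
      rw [hx, hy])

theorem HQ.hom {A Q H' : Type} [Group A] [Group Q] [Group H'] (h : HQ C H') (q : A →* H')
    (π : A →* Q) (hπ : Function.Surjective π) (hk : ∀ x y, π x = 1 → π y = 1 → x * y = y * x) :
    ∃ (L : Type) (_ : Group L) (F : Q →* L), C L ∧
      ∀ x, F x = 1 → ∃ a b : A, π a = x ∧ π b = 1 ∧ q a = q b := by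
  obtain ⟨N, hN⟩ : ∃ N : Subgroup q.range, N = π.ker.map q.rangeRestrict := ⟨_, rfl⟩
  have hNn : N.Normal := by
    rw [hN]
    exact Subgroup.Normal.map inferInstance _ q.rangeRestrict_surjective
  have hCN : C (q.range ⧸ N) := by
    refine h q.range (q.range ⧸ N) q.range.subtype (QuotientGroup.mk' N)
      q.range.subtype_injective (QuotientGroup.mk'_surjective N) ?_
    intro x y hx hy
    have hx : x ∈ N := (QuotientGroup.eq_one_iff x).1 hx
    have hy : y ∈ N := (QuotientGroup.eq_one_iff y).1 hy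
    rw [hN] at hx hy
    obtain ⟨a, ha, rfl⟩ := hx
    obtain ⟨b, hb, rfl⟩ := hy
    rw [← map_mul, hk a b ha hb, map_mul]
  let φ : A →* q.range ⧸ N := (QuotientGroup.mk' N).comp q.rangeRestrict
  have hφ : π.ker ≤ φ.ker := by
    intro a ha
    refine (QuotientGroup.eq_one_iff _).2 ?_
    rw [hN]
    exact ⟨a, ha, rfl⟩
  refine ⟨_, _, π.liftOfSurjective hπ ⟨φ, hφ⟩, hCN, ?_⟩
  intro x hx
  obtain ⟨a, rfl⟩ := hπ x
  have h1 : π.liftOfSurjective hπ ⟨φ, hφ⟩ (π a) = φ a :=
    MonoidHom.liftOfRightInverse_comp_apply _ _ _ _ _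
  rw [h1] at hx
  have h2 : q.rangeRestrict a ∈ N := (QuotientGroup.eq_one_iff _).1 hx
  rw [hN] at h2
  obtain ⟨b, hb, hba⟩ := h2
  exact ⟨a, b, rfl, hb, (congrArg Subtype.val hba).symm⟩

/-- groups with an abelian normal subgroup -/
theorem HQ.ab (hC : ClosedE C) (hM : ∀ (G : Type) [Group G], derivedSeries G 2 = ⊥ → C G)
    {H H' : Type} [Group H] [Group H'] (h : HQ C H') (p : H →* H')
    (hp : ∀ x y, p x = 1 → p y = 1 → x * y = y * x) : HQ C H := by
  intro A Q _ _ ι π hι hπ hk
  obtain ⟨L, _, F, hL, hF⟩ := h.hom (p.comp ι) π hπ hk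
  refine abExt hC hM F hL ?_
  have key : ∀ x : Q, F x = 1 → ∃ a : A, π a = x ∧ p (ι a) = 1 := by
    intro x hx
    obtain ⟨a, b, h1, h2, h3⟩ := hF x hx
    have h3 : p (ι a) = p (ι b) := h3
    refine ⟨a * b⁻¹, ?_, ?_⟩
    · rw [map_mul, map_inv, h1, h2, inv_one, mul_one]
    · rw [map_mul, map_mul, map_inv, map_inv, h3, mul_inv_cancel]
  intro x y hx hy
  obtain ⟨a, rfl, ha⟩ := key x hx
  obtain ⟨b, rfl, hb⟩ := key y hy
  have h1 : a * b = b * a := by
    apply hι
    rw [map_mul, map_mul]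
    exact hp _ _ ha hb
  rw [← map_mul, h1, map_mul]

/-- products -/
theorem HQ.prod (hC : ClosedE C) (hM : ∀ (G : Type) [Group G], derivedSeries G 2 = ⊥ → C G)
    {H H' : Type} [Group H] [Group H'] (h : HQ C H) (h' : HQ C H') : HQ C (H × H') := by
  intro A Q _ _ ι π hι hπ hk
  obtain ⟨L, _, F, hL, hF⟩ := h.hom ((MonoidHom.fst H H').comp ι) π hπ hk
  obtain ⟨L', _, F', hL', hF'⟩ := h'.hom ((MonoidHom.snd H H').comp ι) π hπ hk
  refine abExt hC hM (F.prod F') (hC.base.prod _ _ hL hL') ?_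
  intro x y hx hy
  obtain ⟨a, rfl⟩ := hπ x
  obtain ⟨b, rfl⟩ := hπ y
  rw [← map_mul, ← map_mul]
  obtain ⟨a1, c1, h1, h2, h3⟩ := hF _ (congrArg Prod.fst hx)
  obtain ⟨a2, c2, h4, h5, h6⟩ := hF' _ (congrArg Prod.snd hx)
  obtain ⟨b1, d1, k1, k2, k3⟩ := hF _ (congrArg Prod.fst hy)
  obtain ⟨b2, d2, k4, k5, k6⟩ := hF' _ (congrArg Prod.snd hy)
  -- `a` is in the kernel of `π`, up to the kernel
  have m1 : ∀ (q : A →* H) (u u1 c : A), π u1 = π u → π c = 1 → q u1 = q c → ∃ e, π e = 1 ∧
      q u = q e := by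
    intro q u u1 c e1 e2 e3
    refine ⟨u * u1⁻¹ * c, ?_, ?_⟩
    · rw [map_mul, map_mul, map_inv, e1, e2, mul_one, mul_inv_cancel]
    · rw [map_mul, map_mul, map_inv, e3, inv_mul_cancel_right]
  have m2 : ∀ (q : A →* H') (u u1 c : A), π u1 = π u → π c = 1 → q u1 = q c → ∃ e, π e = 1 ∧
      q u = q e := by
    intro q u u1 c e1 e2 e3
    refine ⟨u * u1⁻¹ * c, ?_, ?_⟩
    · rw [map_mul, map_mul, map_inv, e1, e2, mul_one, mul_inv_cancel]
    · rw [map_mul, map_mul, map_inv, e3, inv_mul_cancel_right]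
  obtain ⟨ea, hea, hea'⟩ := m1 _ _ _ _ h1 h2 h3
  obtain ⟨eb, heb, heb'⟩ := m1 _ _ _ _ k1 k2 k3
  obtain ⟨fa, hfa, hfa'⟩ := m2 _ _ _ _ h4 h5 h6
  obtain ⟨fb, hfb, hfb'⟩ := m2 _ _ _ _ k4 k5 k6
  have h7 : a * b = b * a := by
    apply hι
    refine Prod.ext ?_ ?_
    · show ((MonoidHom.fst H H').comp ι) (a * b) = ((MonoidHom.fst H H').comp ι) (b * a)
      rw [map_mul, map_mul, hea', heb', ← map_mul, hk _ _ hea heb, map_mul]
    · show ((MonoidHom.snd H H').comp ι) (a * b) = ((MonoidHom.snd H H').comp ι) (b * a)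
      rw [map_mul, map_mul, hfa', hfb', ← map_mul, hk _ _ hfa hfb, map_mul]
  rw [h7]

/-- the trivial group -/
theorem HQ.triv (hM : ∀ (G : Type) [Group G], derivedSeries G 2 = ⊥ → C G) {H : Type} [Group H]
    [Subsingleton H] : HQ C H := by
  intro A Q _ _ ι π hι hπ _
  refine hM Q ?_
  rw [eq_bot_iff]
  intro x _
  obtain ⟨a, rfl⟩ := hπ x
  have : a = 1 := hι (Subsingleton.elim _ _)
  rw [this, map_one]
  exact one_mem _

/-- solvable groups -/
theorem HQ.solv (hC : ClosedE C) (hM : ∀ (G : Type) [Group G], derivedSeries G 2 = ⊥ → C G)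
    (n : ℕ) : ∀ (H : Type) [Group H], derivedSeries H n = ⊥ → HQ C H := by
  induction n with
  | zero =>
    intro H _ h
    rw [derivedSeries_zero] at h
    have : Subsingleton H := by
      refine ⟨fun x y => ?_⟩
      have hx : x ∈ (⊤ : Subgroup H) := trivial
      have hy : y ∈ (⊤ : Subgroup H) := trivial
      rw [h, Subgroup.mem_bot] at hx hy
      rw [hx, hy]
    exact HQ.triv hM
  | succ n ih =>
    intro H _ h
    refine (ih (H ⧸ derivedSeries H n) ?_).ab hC hM (QuotientGroup.mk' (derivedSeries H n)) ?_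
    · rw [← map_derivedSeries_eq (QuotientGroup.mk'_surjective (derivedSeries H n)),
        QuotientGroup.map_mk'_self]
    · intro x y hx hy
      have hx : x ∈ derivedSeries H n := (QuotientGroup.eq_one_iff x).1 hx
      have hy : y ∈ derivedSeries H n := (QuotientGroup.eq_one_iff y).1 hy
      have h1 : ⁅x, y⁆ ∈ ⁅derivedSeries H n, derivedSeries H n⁆ :=
        Subgroup.commutator_mem_commutator hx hy
      rw [← derivedSeries_succ, h, Subgroup.mem_bot] at h1
      exact commutatorElement_eq_one_iff_mul_comm.1 h1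

/-- linear groups over a field `F`, if the general linear groups over `F` are in the class -/
theorem HQ.lin (hC : ClosedE C) (hM : ∀ (G : Type) [Group G], derivedSeries G 2 = ⊥ → C G)
    {F : Type} [Field F] (hF : ∀ k : ℕ, C (Matrix.GeneralLinearGroup (Fin k) F)) {H : Type} [Group H]
    {m : ℕ} (ρ : H →* Matrix.GeneralLinearGroup (Fin m) F) (hρ : Function.Injective ρ) :
    HQ C H := by
  intro A Q _ _ ι π hι hπ hk
  obtain ⟨σ, hσ⟩ : ∃ σ : A →* Matrix.GeneralLinearGroup (Fin m) F, σ = ρ.comp ι := ⟨_, rfl⟩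
  have hσi : Function.Injective σ := by
    rw [hσ]
    exact hρ.comp hι
  -- the centralizer algebra
  let D : Submodule F (Matrix (Fin m) (Fin m) F) :=
    { carrier := {X | ∀ b, π b = 1 → (σ b).val * X = X * (σ b).val}
      add_mem' := by
        intro X Y hX hY b hb
        rw [mul_add, add_mul, hX b hb, hY b hb]
      zero_mem' := by
        intro b _
        rw [mul_zero, zero_mul]
      smul_mem' := by
        intro c X hX b hb
        rw [mul_smul_comm, smul_mul_assoc, hX b hb] }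
  have hD : ∀ X, X ∈ D ↔ ∀ b, π b = 1 → (σ b).val * X = X * (σ b).val := fun _ => Iff.rfl
  have hinv : ∀ a : A, (σ a).val * (σ a⁻¹).val = 1 := by
    intro a
    rw [← Units.val_mul, ← map_mul, mul_inv_cancel, map_one, Units.val_one]
  have hinv' : ∀ a : A, (σ a⁻¹).val * (σ a).val = 1 := by
    intro a
    rw [← Units.val_mul, ← map_mul, inv_mul_cancel, map_one, Units.val_one]
  have hconj : ∀ (a : A) (X), X ∈ D → (σ a).val * X * (σ a⁻¹).val ∈ D := by
    intro a X hX b hb
    have h1 : π (a⁻¹ * b * a) = 1 := by rw [map_mul, map_mul, hb, mul_one, map_inv, inv_mul_cancel]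
    have h2 := hX _ h1
    have h3 : (σ b).val * (σ a).val = (σ a).val * (σ (a⁻¹ * b * a)).val := by
      rw [← Units.val_mul, ← Units.val_mul, ← map_mul, ← map_mul]
      congr 2
      group
    have h4 : (σ (a⁻¹ * b * a)).val * (σ a⁻¹).val = (σ a⁻¹).val * (σ b).val := by
      rw [← Units.val_mul, ← Units.val_mul, ← map_mul, ← map_mul]
      congr 2
      group
    calc (σ b).val * ((σ a).val * X * (σ a⁻¹).val)
        = ((σ b).val * (σ a).val) * X * (σ a⁻¹).val := by simp only [mul_assoc]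
      _ = (σ a).val * ((σ (a⁻¹ * b * a)).val * X) * (σ a⁻¹).val := by rw [h3]; simp only [mul_assoc]
      _ = (σ a).val * X * ((σ (a⁻¹ * b * a)).val * (σ a⁻¹).val) := by rw [h2]; simp only [mul_assoc]
      _ = (σ a).val * X * (σ a⁻¹).val * (σ b).val := by rw [h4]; simp only [mul_assoc]
  let φ : A →* Module.End F D :=
    { toFun := fun a =>
        { toFun := fun X => ⟨(σ a).val * X.1 * (σ a⁻¹).val, hconj a X.1 X.2⟩
          map_add' := by
            intro X Y
            apply Subtype.ext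
            show (σ a).val * (X.1 + Y.1) * (σ a⁻¹).val = _
            rw [mul_add, add_mul]
            rfl
          map_smul' := by
            intro c X
            apply Subtype.ext
            show (σ a).val * (c • X.1) * (σ a⁻¹).val = c • ((σ a).val * X.1 * (σ a⁻¹).val)
            rw [mul_smul_comm, smul_mul_assoc] }
      map_one' := by
        refine LinearMap.ext fun X => Subtype.ext ?_
        show (σ 1).val * X.1 * (σ 1⁻¹).val = X.1
        rw [inv_one, map_one, Units.val_one, one_mul, mul_one]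
      map_mul' := by
        intro a b
        refine LinearMap.ext fun X => Subtype.ext ?_
        show (σ (a * b)).val * X.1 * (σ (a * b)⁻¹).val =
          (σ a).val * ((σ b).val * X.1 * (σ b⁻¹).val) * (σ a⁻¹).val
        rw [mul_inv_rev, map_mul, map_mul, Units.val_mul, Units.val_mul]
        simp only [mul_assoc] }
  have hφ1 : ∀ a, φ a = 1 ↔ ∀ X ∈ D, (σ a).val * X = X * (σ a).val := by
    intro a
    constructor
    · intro h X hX
      have h1 := congrArg Subtype.val (LinearMap.congr_fun h ⟨X, hX⟩)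
      have h1 : (σ a).val * X * (σ a⁻¹).val = X := h1
      have h2 : (σ a).val * X * (σ a⁻¹).val * (σ a).val = X * (σ a).val :=
        congrArg (fun Y => Y * (σ a).val) h1
      rw [mul_assoc, hinv', mul_one] at h2
      exact h2
    · intro h
      refine LinearMap.ext fun X => Subtype.ext ?_
      show (σ a).val * X.1 * (σ a⁻¹).val = X.1
      rw [h X.1 X.2, mul_assoc, hinv, mul_one]
  obtain ⟨e⟩ : Nonempty (Module.End F D ≃* Matrix (Fin (Module.finrank F D))
    (Fin (Module.finrank F D)) F) := ⟨(LinearMap.toMatrixAlgEquiv (Module.finBasis F D)).toMulEquiv⟩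
  let Φ : A →* Matrix.GeneralLinearGroup (Fin (Module.finrank F D)) F :=
    (e.toMonoidHom.comp φ).toHomUnits
  have hΦ : ∀ a, Φ a = 1 ↔ φ a = 1 := by
    intro a
    rw [← Units.val_eq_one]
    show e (φ a) = 1 ↔ _
    constructor
    · intro h
      exact e.injective (h.trans (map_one e).symm)
    · intro h
      rw [h, map_one]
  have hN : π.ker ≤ Φ.ker := by
    intro a ha
    refine (hΦ a).2 ((hφ1 a).2 fun X hX => hX a ha)
  refine abExt hC hM (π.liftOfSurjective hπ ⟨Φ, hN⟩) (hF _) ?_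
  intro x y hx hy
  obtain ⟨a, rfl⟩ := hπ x
  obtain ⟨b, rfl⟩ := hπ y
  have h1 : ∀ a, π.liftOfSurjective hπ ⟨Φ, hN⟩ (π a) = Φ a :=
    fun a => MonoidHom.liftOfRightInverse_comp_apply _ _ _ _ _
  rw [h1] at hx hy
  have hx := (hφ1 a).1 ((hΦ a).1 hx)
  have hy := (hφ1 b).1 ((hΦ b).1 hy)
  have hbD : (σ b).val ∈ D := by
    intro c hc
    have hcD : (σ c).val ∈ D := by
      intro d hd
      rw [← Units.val_mul, ← Units.val_mul, ← map_mul, ← map_mul, hk d c hd hc]
    exact (hy _ hcD).symm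
  have h2 := hx _ hbD
  rw [← Units.val_mul, ← Units.val_mul, ← map_mul, ← map_mul] at h2
  rw [← map_mul, ← map_mul, hσi (Units.ext h2)]

end Pool.Agent.T2h60.CY
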