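import Pool.Agent.T2h60.CY.HQ

/-!
# Isolated edge groups whose elements commute if they commute up to powers
-/

set_option autoImplicit false
set_option linter.unusedSectionVars false

namespace Pool.Agent.T2h60.CY

open SimpleGraph
open scoped commutatorElement
open Subgroup
open Subgroup.Commensurable (commensurator)
open Pool.Agent.Y110.FJ
open Pool.Agent.N509.TK
open Pool.Agent.N509.TX (AcylF C_edge)
open Pool.Agent.N431.CE (Es Es_smul Es_comm exists_comm exists_poly)
open Pool.Agent.N77.CP (VCen Mx TF)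
open Pool.Agent.N24.CM (Comm)
open Pool.Agent.R941.FJ (C_equiv C_le)

variable {C : ∀ (G : Type) [Group G], Prop}

/-- the condition on one edge group: it is abelian, or its abstract commensurator is in the class, or it is
virtually polycyclic (and the general linear groups over the rational numbers are in the class) -/
def Ed (C : ∀ (G : Type) [Group G], Prop) {G : Type} [Group G] (E : Subgroup G) : Prop :=
  (∀ x ∈ E, ∀ y ∈ E, x * y = y * x) ∨ C (Comm E) ∨
    ((∀ m : ℕ, C (Matrix.GeneralLinearGroup (Fin m) ℚ)) ∧ ∃ P : Subgroup G, P ≤ E ∧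
      P.relIndex E ≠ 0 ∧ Group.IsSolvable P ∧ Mx P ∧ TF P)

variable {G V : Type} [Group G] [MulAction G V] {T : SimpleGraph V}

theorem pow_mem_of {A B : Subgroup G} (h : Commensurable A B) {x : G} (hx : x ∈ B) :
    ∃ k : ℕ, k ≠ 0 ∧ x ^ k ∈ A := by
  obtain ⟨k, hk, _, h1⟩ := Subgroup.exists_pow_mem_of_relIndex_ne_zero h.1 hx
  exact ⟨k, hk.ne', h1.1⟩

/-- **isolated edge groups whose elements commute if they commute up to powers** -/
theorem iso2 (hC : ClosedE C) (hM : ∀ (G : Type) [Group G], derivedSeries G 2 = ⊥ → C G)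
    (hA : AcylF C) (hT : T.IsTree) (hact : ∀ (g : G) (u v : V), T.Adj u v → T.Adj (g • u) (g • v))
    (hV : ∀ v : V, C ↥(MulAction.stabilizer G v)) (n : ℕ)
    (hint : ∀ v a b, T.Adj v a → T.Adj v b → a ≠ b →
      (Infinite (Es G v a) ∧ Infinite (Es G v b) ∧ Commensurable (Es G v a) (Es G v b)) ∨
      ∀ F : Finset G, (∀ g ∈ F, g ∈ Es G v a ∧ g ∈ Es G v b) → F.card ≤ n)
    (hcp : ∀ v a b, T.Adj v a → T.Adj v b → Infinite (Es G v a) →
      Commensurable (Es G v a) (Es G v b) → ∀ x ∈ Es G v a, ∀ y ∈ Es G v b, ∀ k : ℕ, k ≠ 0 →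
        x ^ k * y = y * x ^ k → x * y = y * x)
    (hQ : ∀ v a, T.Adj v a → Infinite (Es G v a) →
      HQ C ↥(commensurator (Es G v a) ⊓ MulAction.stabilizer G v))
    (hE : ∀ v a, T.Adj v a → Infinite (Es G v a) → Ed C (Es G v a)) : C G := by
  have hC1 : C (Multiplicative Unit) := hM _ (by
    rw [eq_bot_iff]
    intro x _
    exact Subgroup.mem_bot.2 (Subsingleton.elim _ _))
  refine isoT hC hM hA hT hact hV n hint ?_
  intro v0 a0 h0 hinf
  obtain ⟨E, hEE⟩ : ∃ E, E = Es G v0 a0 := ⟨_, rfl⟩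
  have hE0 := hE v0 a0 h0 hinf
  rw [← hEE] at hinf hE0 ⊢
  -- commensurable edge groups are infinite
  have hinf' : ∀ w z : V, Commensurable (Es G w z) E → Infinite (Es G w z) := by
    intro w z h
    by_contra h1
    have h2 : Finite (Es G w z) := not_infinite_iff_finite.1 h1
    have h4 : Finite (Es G w z ⊓ E : Subgroup G) :=
      Finite.of_injective (Subgroup.inclusion (inf_le_left : Es G w z ⊓ E ≤ Es G w z))
        (Subgroup.inclusion_injective _)
    have h5 : (Es G w z ⊓ E).relIndex E ≠ 0 := by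
      rw [Subgroup.inf_relIndex_right]
      exact h.1
    have h6 := Subgroup.card_mul_index ((Es G w z ⊓ E).subgroupOf E)
    have h7 : Nat.card ((Es G w z ⊓ E).subgroupOf E) ≠ 0 := by
      have : Finite ((Es G w z ⊓ E).subgroupOf E) :=
        Finite.of_injective (fun x => (⟨x.1.1, x.2⟩ : (Es G w z ⊓ E : Subgroup G)))
          (fun x y hxy => Subtype.ext (Subtype.ext (Subtype.mk.inj hxy)))
      exact Nat.card_pos.ne'
    have h8 : Nat.card E ≠ 0 := by
      rw [← h6]
      exact mul_ne_zero h7 h5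
    have h9 : Finite E := Nat.finite_of_card_ne_zero h8
    exact not_finite E
  -- the homomorphism of the commensurator
  obtain ⟨P, _, f, hP, hf⟩ : ∃ (P : Type) (_ : Group P) (f : commensurator E →* P), C P ∧
      ∀ w z z', T.Adj w z → T.Adj w z' → Commensurable (Es G w z) E →
        Commensurable (Es G w z') E → ∀ x : commensurator E, ∀ y : commensurator E,
          (x : G) ∈ Es G w z → (y : G) ∈ Es G w z' → f x = 1 → f y = 1 →
          ∃ k : ℕ, k ≠ 0 ∧ (x : G) ^ k * y = y * (x : G) ^ k := by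
    have hVC : ∀ (P : Type) (_ : Group P) (f : commensurator E →* P), C P →
        (∀ g, f g = 1 → VCen E (g : G)) → ∃ (P : Type) (_ : Group P) (f : commensurator E →* P),
        C P ∧ ∀ w z z', T.Adj w z → T.Adj w z' → Commensurable (Es G w z) E →
        Commensurable (Es G w z') E → ∀ x : commensurator E, ∀ y : commensurator E,
          (x : G) ∈ Es G w z → (y : G) ∈ Es G w z' → f x = 1 → f y = 1 →
          ∃ k : ℕ, k ≠ 0 ∧ (x : G) ^ k * y = y * (x : G) ^ k := by
      intro P _ f hP hf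
      refine ⟨P, _, f, hP, ?_⟩
      intro w z z' hz hz' hc hc' x y hx hy _ hfy
      have h1 : (Subgroup.centralizer {(y : G)}).relIndex E ≠ 0 := hf y hfy
      obtain ⟨k, hk, h2⟩ := pow_mem_of hc.symm hx
      obtain ⟨l, hl, _, h3⟩ := Subgroup.exists_pow_mem_of_relIndex_ne_zero h1 h2
      refine ⟨k * l, mul_ne_zero hk hl.ne', ?_⟩
      rw [pow_mul]
      exact Subgroup.mem_centralizer_singleton_iff.1 h3.1
    rcases hE0 with hab | hcm | ⟨hL, P, h1, h2, h3, h4, h5⟩
    · refine ⟨Multiplicative Unit, inferInstance, 1, hC1, ?_⟩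
      intro w z z' hz hz' hc hc' x y hx hy _ _
      obtain ⟨k, hk, h2⟩ := pow_mem_of hc.symm hx
      obtain ⟨l, hl, h3⟩ := pow_mem_of hc'.symm hy
      refine ⟨k, hk, ?_⟩
      have h4 := hab _ h2 _ h3
      exact (hcp w z' z hz' hz (hinf' w z' hc') (hc'.trans hc.symm) y hy ((x : G) ^ k)
        (pow_mem hx k) l hl h4.symm).symm
    · obtain ⟨Q, _, f, hQ, hf⟩ := exists_comm E hcm
      exact hVC Q _ f hQ hf
    · obtain ⟨Q, _, f, hQ, hf⟩ := exists_poly hC hM hL E P h1 h2 h3 h4 h5
      exact hVC Q _ f hQ hf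
  refine ⟨P, _, f, hP, ?_⟩
  intro w z hwz hc
  -- the group is abelian
  obtain ⟨S, hS⟩ : ∃ S : Set G, S = {x | x ∈ f.ker.map (commensurator E).subtype ∧
    ∃ z, T.Adj w z ∧ Commensurable (Es G w z) E ∧ x ∈ Es G w z} := ⟨_, rfl⟩
  have hZ : Zf T E f w = Subgroup.closure S := by rw [hS]; rfl
  have hSS : ∀ x ∈ S, ∀ y ∈ S, x * y = y * x := by
    intro x hx y hy
    rw [hS] at hx hy
    obtain ⟨⟨x, hx0, rfl⟩, zx, hx1, hx2, hx3⟩ := hx
    obtain ⟨⟨y, hy0, rfl⟩, zy, hy1, hy2, hy3⟩ := hy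
    obtain ⟨k, hk, h1⟩ := hf w zx zy hx1 hy1 hx2 hy2 x y hx3 hy3 hx0 hy0
    exact hcp w zx zy hx1 hy1 (hinf' w zx hx2) (hx2.trans hy2.symm) _ hx3 _ hy3 k hk h1
  have hab : ∀ x ∈ Zf T E f w, ∀ y ∈ Zf T E f w, x * y = y * x := by
    rw [hZ]
    have h1 : Subgroup.closure S ≤ Subgroup.centralizer S := by
      refine (Subgroup.closure_le _).2 fun x hx => ?_
      exact Subgroup.mem_centralizer_iff.2 fun y hy => hSS y hy x hx
    have h2 : Subgroup.closure S ≤ Subgroup.centralizer (Subgroup.closure S : Set G) := by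
      refine (Subgroup.closure_le _).2 fun x hx => ?_
      refine Subgroup.mem_centralizer_iff.2 fun y hy => ?_
      exact (Subgroup.mem_centralizer_iff.1 (h1 hy) x hx).symm
    intro x hx y hy
    exact Subgroup.mem_centralizer_iff.1 (h2 hy) x hx
  refine ⟨?_, ?_⟩
  · have h1 : ⁅Zf T E f w, Zf T E f w⁆ = ⊥ := by
      rw [eq_bot_iff, Subgroup.commutator_le]
      intro x hx y hy
      exact Subgroup.mem_bot.2 (commutatorElement_eq_one_iff_mul_comm.2 (hab x hx y hy))
    rw [h1, inf_bot_eq]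
  · have h1 := hQ w z hwz (hinf' w z hc)
    rw [Commensurable.eq hc] at h1
    obtain ⟨A, hA'⟩ : ∃ A : Subgroup G, A = commensurator E ⊓ MulAction.stabilizer G w := ⟨_, rfl⟩
    rw [← hA'] at h1 ⊢
    have hn : ((Zf T E f w).subgroupOf A).Normal := by
      refine ⟨fun x hx g => ?_⟩
      have hg : (g : G) ∈ commensurator E ⊓ MulAction.stabilizer G w := hA'.le g.2
      have h2 := Zf_conj hact hg.1 (T := T) (w := w) (f := f) hx
      rw [show (g : G) • w = w from hg.2] at h2
      exact h2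
    refine ⟨A ⧸ (Zf T E f w).subgroupOf A, inferInstance, QuotientGroup.mk' _, ?_, ?_⟩
    · refine h1 A _ (MonoidHom.id A) (QuotientGroup.mk' _) Function.injective_id
        (QuotientGroup.mk'_surjective _) ?_
      intro x y hx hy
      have hx : x ∈ (Zf T E f w).subgroupOf A := (QuotientGroup.eq_one_iff x).1 hx
      have hy : y ∈ (Zf T E f w).subgroupOf A := (QuotientGroup.eq_one_iff y).1 hy
      exact Subtype.ext (hab _ hx _ hy)
    · intro x
      rw [QuotientGroup.mk'_apply, QuotientGroup.eq_one_iff]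
      rfl

end Pool.Agent.T2h60.CY
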