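import Pool.Agent.T2h60.CY.Tow
import Pool.Agent.N431.CE.Fin

/-!
# The theorem on cylinders with towers, and isolated edge groups
-/

set_option autoImplicit false
set_option linter.unusedSectionVars false

namespace Pool.Agent.T2h60.CY

open SimpleGraph
open scoped commutatorElement
open Subgroup
open Subgroup.Commensurable (commensurator)
open Pool.Agent.Y110.FJ
open Pool.Agent.N509.TK
open Pool.Agent.N509.TX (AcylF C_edge of_fg)
open Pool.Agent.N431.CE (Es Es_smul Es_comm cylF rf rf_LR Rf Rf_gen)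
open Pool.Agent.R941.FJ (C_equiv C_le)

variable {C : ∀ (G : Type) [Group G], Prop}
variable {G V : Type} [Group G] [MulAction G V] {T : SimpleGraph V}

/-- **the theorem on cylinders with towers** -/
theorem cylT (hC : ClosedE C) (hM : ∀ (G : Type) [Group G], derivedSeries G 2 = ⊥ → C G)
    (hA : AcylF C) (hT : T.IsTree) (hact : ∀ (g : G) (u v : V), T.Adj u v → T.Adj (g • u) (g • v))
    (r : V → V → V → Prop) (hr : LR G T r) (m : ℕ)
    (hint : ∀ w a b, T.Adj w a → T.Adj w b → ¬ r w a b →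
      ∀ F : Finset G, (∀ g ∈ F, g • w = w ∧ g • a = a ∧ g • b = b) → F.card ≤ m)
    (hV : ∀ v : V, C ↥(MulAction.stabilizer G v))
    (hY : ∀ v a (h : T.Adj v a) (H : Subgroup G), H.FG →
      (∀ g ∈ H, Relation.EqvGen (lk T r) (dt h) (dt (hact g v a h))) →
      ∃ (K : Subgroup G) (X : Set V) (n : ℕ) (R : ℕ → V → Subgroup G),
        H ≤ K ∧ X.Nonempty ∧
        (∀ v ∈ X, ∀ u ∈ X, ∀ p : T.Walk v u, p.IsPath → ∀ z ∈ p.support, z ∈ X) ∧
        (∀ g ∈ H, ∀ v ∈ X, g • v ∈ X) ∧ Tow C T K X n R) : C G := by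
  refine cylF hC hA hT hact hr m hint hV fun y K' hK' => ?_
  obtain ⟨⟨⟨v0, a0⟩, h0⟩, hy⟩ := Quotient.exists_rep y
  have h0 : T.Adj v0 a0 := h0
  have hy : cy r h0 = y := hy
  subst hy
  refine of_fg hC fun H hH => ?_
  have e := H.equivMapOfInjective K'.subtype K'.subtype_injective
  refine C_equiv hC.base e ?_
  obtain ⟨K, X, n, R, hK, hne, hcv, hX, hR⟩ := hY v0 a0 h0 (H.map K'.subtype)
    ((Group.fg_iff_subgroup_fg _).1 (Group.fg_of_surjective (f := e.toMonoidHom) e.surjective)) (by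
    rintro _ ⟨g, _, rfl⟩
    exact (cs T r).symm (Quotient.exact (hK' g g.2 v0 a0 h0 rfl)))
  exact hR.C_of hC hM hA hT hact hne hcv _ hK hX

/-- the group generated by the elements `x` of the edge groups at `w` commensurable to `E` with
`f x = 1` -/
def Zf (T : SimpleGraph V) (E : Subgroup G) {P : Type} [Group P] (f : commensurator E →* P) (w : V) :
    Subgroup G :=
  Subgroup.closure {x | x ∈ f.ker.map (commensurator E).subtype ∧
    ∃ z, T.Adj w z ∧ Commensurable (Es G w z) E ∧ x ∈ Es G w z}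

theorem Zf_ker {E : Subgroup G} {P : Type} [Group P] {f : commensurator E →* P} {w : V} :
    Zf T E f w ≤ f.ker.map (commensurator E).subtype := by
  refine (Subgroup.closure_le _).2 ?_
  rintro x ⟨h, _⟩
  exact h

theorem Zf_st {E : Subgroup G} {P : Type} [Group P] {f : commensurator E →* P} {w : V} :
    Zf T E f w ≤ MulAction.stabilizer G w := by
  refine (Subgroup.closure_le _).2 ?_
  rintro x ⟨_, z, _, _, h⟩
  exact h.1

theorem mem_Zf {E : Subgroup G} {P : Type} [Group P] {f : commensurator E →* P} {w z : V} {x : G}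
    (h : T.Adj w z) (hE : Commensurable (Es G w z) E) (hx : x ∈ Es G w z)
    (hf : x ∈ f.ker.map (commensurator E).subtype) : x ∈ Zf T E f w :=
  Subgroup.subset_closure ⟨hf, z, h, hE, hx⟩

theorem Zf_conj (hact : ∀ (g : G) (u v : V), T.Adj u v → T.Adj (g • u) (g • v)) {E : Subgroup G}
    {P : Type} [Group P] {f : commensurator E →* P} {w : V} {g : G} (hg : g ∈ commensurator E)
    {x : G} (hx : x ∈ Zf T E f w) : g * x * g⁻¹ ∈ Zf T E f (g • w) := by
  have h1 : Zf T E f w ≤ (Zf T E f (g • w)).comap (MulAut.conj g).toMonoidHom := by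
    refine (Subgroup.closure_le _).2 ?_
    rintro x ⟨⟨y, hy, rfl⟩, z, hz, hE, hxz⟩
    have hy' : f y = 1 := hy
    refine mem_Zf (z := g • z) (hact g w z hz) ?_ ?_ ?_
    · rw [Es_smul]
      have h2 := (Commensurable.commensurator_mem_iff E g).1 hg
      exact (hE.conj _).trans h2
    · refine ⟨?_, ?_⟩
      · show (g * (y : G) * g⁻¹) • (g • w) = g • w
        rw [mul_smul, inv_smul_smul, mul_smul, show (y : G) • w = w from hxz.1]
      · show (g * (y : G) * g⁻¹) • (g • z) = g • z
        rw [mul_smul, inv_smul_smul, mul_smul, show (y : G) • z = z from hxz.2]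
    · refine ⟨⟨g, hg⟩ * y * ⟨g, hg⟩⁻¹, ?_, rfl⟩
      show f (⟨g, hg⟩ * y * ⟨g, hg⟩⁻¹) = 1
      rw [map_mul, map_mul, hy', mul_one, map_inv, mul_inv_cancel]
  exact h1 hx

/-- a tower with one step -/
def st1 (Z : V → Subgroup G) : ℕ → V → Subgroup G
  | 0, _ => ⊥
  | _ + 1, w => Z w

/-- isolated edge groups, with a homomorphism of the commensurator -/
theorem isoT (hC : ClosedE C) (hM : ∀ (G : Type) [Group G], derivedSeries G 2 = ⊥ → C G)
    (hA : AcylF C) (hT : T.IsTree) (hact : ∀ (g : G) (u v : V), T.Adj u v → T.Adj (g • u) (g • v))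
    (hV : ∀ v : V, C ↥(MulAction.stabilizer G v)) (n : ℕ)
    (hint : ∀ v a b, T.Adj v a → T.Adj v b → a ≠ b →
      (Infinite (Es G v a) ∧ Infinite (Es G v b) ∧ Commensurable (Es G v a) (Es G v b)) ∨
      ∀ F : Finset G, (∀ g ∈ F, g ∈ Es G v a ∧ g ∈ Es G v b) → F.card ≤ n)
    (hE : ∀ v u : V, T.Adj v u → Infinite (Es G v u) →
      ∃ (P : Type) (_ : Group P) (f : commensurator (Es G v u) →* P), C P ∧
        ∀ w z, T.Adj w z → Commensurable (Es G w z) (Es G v u) →
          Es G w z ⊓ ⁅Zf T (Es G v u) f w, Zf T (Es G v u) f w⁆ = ⊥ ∧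
          ∃ (Q : Type) (_ : Group Q)
            (π : ↥(commensurator (Es G v u) ⊓ MulAction.stabilizer G w) →* Q), C Q ∧
            ∀ x, π x = 1 ↔ (x : G) ∈ Zf T (Es G v u) f w) : C G := by
  classical
  have hr := rf_LR (G := G) (T := T)
  have hC1 : C (Multiplicative Unit) := hM _ (by
    rw [eq_bot_iff]
    intro x _
    exact Subgroup.mem_bot.2 (Subsingleton.elim _ _))
  refine cylT hC hM hA hT hact (rf G) hr n ?_ hV fun v0 a0 h0 => ?_
  · intro w a b ha hb hab F hF
    rcases hint w a b ha hb (fun h => hab (Or.inl h)) with h | h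
    · exact absurd (Or.inr h) hab
    · exact h F fun g hg => ⟨⟨(hF g hg).1, (hF g hg).2.1⟩, ⟨(hF g hg).1, (hF g hg).2.2⟩⟩
  obtain ⟨X, hX⟩ : ∃ X : Set V, X = {w | ∃ (z : V) (h' : T.Adj w z),
    Relation.EqvGen (lk T (rf G)) (dt h0) (dt h')} := ⟨_, rfl⟩
  have hXm : ∀ w, w ∈ X ↔ Mem (cy (rf G) h0) w := by
    intro w
    rw [hX]
    constructor
    · rintro ⟨z, h', h⟩
      exact ⟨z, h', Quotient.sound ((cs T (rf G)).symm h)⟩
    · rintro ⟨z, h', h⟩
      exact ⟨z, h', (cs T (rf G)).symm (Quotient.exact h)⟩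
  intro H _ hH
  have hne : X.Nonempty := ⟨v0, (hXm v0).2 (Mem_cy h0)⟩
  have hcv : ∀ v ∈ X, ∀ u ∈ X, ∀ p : T.Walk v u, p.IsPath → ∀ z ∈ p.support, z ∈ X :=
    fun v hv u hu p hp z hz => (hXm z).2 (path_mem hT hr ((hXm v).1 hv) ((hXm u).1 hu) p hp z hz)
  have hinv : ∀ g ∈ H, ∀ v ∈ X, g • v ∈ X := by
    intro g hg v hv
    rw [hX] at hv ⊢
    obtain ⟨z, h1, h2⟩ := hv
    exact ⟨g • z, hact g v z h1, Relation.EqvGen.trans _ _ _ (hH g hg)
      (tr_gen hact hr g h2)⟩
  -- adjacent vertices of the cylinder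
  have hadj : ∀ w ∈ X, ∀ z ∈ X, T.Adj w z → Rf G (v0, a0) (w, z) := by
    intro w hw z hz h
    have h1 := adj_cy hT hr ((hXm w).1 hw) ((hXm z).1 hz) h
    exact Rf_gen (p := dt h0) (q := dt h) ((cs T (rf G)).symm (Quotient.exact h1))
  by_cases hinf : Infinite (Es G v0 a0)
  · obtain ⟨P, _, f, hP, hf⟩ := hE v0 a0 h0 hinf
    obtain ⟨E, hEE⟩ : ∃ E, E = Es G v0 a0 := ⟨_, rfl⟩
    rw [← hEE] at hinf
    subst hEE
    have hadj' : ∀ w ∈ X, ∀ z ∈ X, T.Adj w z → Commensurable (Es G w z) (Es G v0 a0) :=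
      fun w hw z hz h => (hadj w hw z hz h).comm.symm
    refine ⟨commensurator (Es G v0 a0), X, 1, st1 (Zf T (Es G v0 a0) f), ?_, hne, hcv, hinv, ?_⟩
    · intro g hg
      rw [Commensurable.commensurator_mem_iff, ← Es_smul]
      exact (Rf_gen (p := dt h0) (q := dt (hact g v0 a0 h0)) (hH g hg)).comm.symm
    refine ⟨?_, ?_, ?_, ?_, ?_, ?_, ?_, ?_⟩
    · intro j hj v hv x hx
      cases j with
      | zero =>
        rw [Subgroup.mem_bot.1 hx]
        exact ⟨one_mem _, one_smul _ _⟩
      | succ j =>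
        have hx : x ∈ Zf T (Es G v0 a0) f v := hx
        obtain ⟨y, _, rfl⟩ := Zf_ker hx
        exact ⟨y.2, Zf_st hx⟩
    · intro j hj g hg v hv hgv x hx
      cases j with
      | zero =>
        rw [Subgroup.mem_bot.1 hx, mul_one, mul_inv_cancel]
        exact one_mem _
      | succ j => exact Zf_conj hact hg hx
    · intro j hj u hu v hv huv x hx hxu
      cases j with
      | zero => exact hx
      | succ j => exact mem_Zf huv (hadj' u hu v hv huv) ⟨hxu, Zf_st hx⟩ (Zf_ker hx)
    · intro j hj v hv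
      cases j with
      | zero => exact bot_le
      | succ j => omega
    · intro v hv
      rfl
    · intro j hj v hv
      cases j with
      | zero =>
        refine ⟨_, _, MonoidHom.id _, C_le hC.base inf_le_right (hV v), fun x => ?_⟩
        show _ ↔ (x : G) ∈ (⊥ : Subgroup G)
        rw [Subgroup.mem_bot]
        exact ⟨fun h => congrArg Subtype.val h, fun h => Subtype.ext h⟩
      | succ j =>
        rw [hX] at hv
        obtain ⟨z, h1, h2⟩ := hv
        have h3 := (Rf_gen (p := dt h0) (q := dt h1) h2).comm.symm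
        exact (hf v z h1 h3).2
    · intro j hj v hv u hu hvu
      have : j = 0 := by omega
      subst this
      refine ⟨Multiplicative Unit, inferInstance, 1, hC1, fun _ _ _ _ => rfl, ?_⟩
      intro x hxv hxu hx
      have hx : (x : G) ∈ ⁅Zf T (Es G v0 a0) f v ⊓ (MonoidHom.ker 1).map
        (commensurator (Es G v0 a0)).subtype, Zf T (Es G v0 a0) f v ⊓ (MonoidHom.ker 1).map
        (commensurator (Es G v0 a0)).subtype⁆ ⊔ ⊥ := hx
      rw [sup_bot_eq] at hx
      have h1 := (hf v u hvu (hadj' v hv u hu hvu)).1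
      have h2 : (x : G) ∈ Es G v u ⊓ ⁅Zf T (Es G v0 a0) f v, Zf T (Es G v0 a0) f v⁆ :=
        ⟨⟨hxv, hxu⟩, Subgroup.commutator_mono inf_le_left inf_le_left hx⟩
      rw [h1] at h2
      exact h2
    · left
      intro v hv u hu hvu
      refine ⟨P, _, f, hP, ?_, ?_⟩
      · intro w hw x hx
        have hx : (x : G) ∈ Zf T (Es G v0 a0) f w := hx
        obtain ⟨y, hy, hyx⟩ := Zf_ker hx
        have : y = x := Subtype.ext hyx
        rw [← this]
        exact hy
      · intro x hxv hxu hx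
        refine mem_Zf hvu (hadj' v hv u hu hvu) ⟨hxv, hxu⟩ ?_
        have h1 : ⁅MulAction.stabilizer G v ⊓ f.ker.map (commensurator (Es G v0 a0)).subtype,
            MulAction.stabilizer G v ⊓ f.ker.map (commensurator (Es G v0 a0)).subtype⁆ ⊔
            Zf T (Es G v0 a0) f v ≤ f.ker.map (commensurator (Es G v0 a0)).subtype :=
          sup_le ((Subgroup.commutator_le_self _).trans inf_le_right) Zf_ker
        exact h1 hx
  · refine ⟨⊤, X, 0, fun _ _ => ⊥, le_top, hne, hcv, hinv, ?_⟩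
    have hfin : Finite (Es G v0 a0) := not_infinite_iff_finite.1 hinf
    refine ⟨?_, ?_, ?_, ?_, ?_, ?_, ?_, ?_⟩
    · intro j _ v _ x hx
      rw [Subgroup.mem_bot.1 hx]
      exact ⟨one_mem _, one_smul _ _⟩
    · intro j _ g _ v _ _ x hx
      rw [Subgroup.mem_bot.1 hx, mul_one, mul_inv_cancel]
      exact one_mem _
    · intro j _ u _ v _ _ x hx _
      exact hx
    · intro j hj
      omega
    · intro v _
      rfl
    · intro j _ v _
      refine ⟨_, _, MonoidHom.id _, C_le hC.base inf_le_right (hV v), fun x => ?_⟩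
      rw [Subgroup.mem_bot]
      exact ⟨fun h => congrArg Subtype.val h, fun h => Subtype.ext h⟩
    · intro j hj
      omega
    · refine Or.inr ⟨Nat.card (Es G v0 a0), fun v hv u hu hvu => ?_⟩
      rw [Subgroup.relIndex_bot_left, top_inf_eq]
      have h1 : Es G v u = Es G v0 a0 := by
        rcases hadj v hv u hu hvu with (h | h) | ⟨h, _, _⟩
        · have h2 := congrArg Prod.fst h
          have h3 := congrArg Prod.snd h
          have h2 : v = v0 := h2
          have h3 : u = a0 := h3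
          rw [h2, h3]
        · have h2 := congrArg Prod.fst h
          have h3 := congrArg Prod.snd h
          have h2 : v = a0 := h2
          have h3 : u = v0 := h3
          rw [h2, h3, Es_comm]
        · exact absurd h hinf
      rw [h1]
      exact ⟨Nat.card_pos.ne', le_rfl⟩

end Pool.Agent.T2h60.CY
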