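import Pool.Agent.T2h60.CY.Wd
import Pool.Agent.N431.CE.IsoF

/-!
# The quotient of a group acting on a tree by the group generated by a family of subgroups

`N = ⨆ R v`. The quotient `G ⧸ N` acts on a tree with vertex groups `G_v / R v`.
-/

set_option autoImplicit false
set_option linter.unusedSectionVars false

namespace Pool.Agent.T2h60.CY

open SimpleGraph
open scoped commutatorElement
open Pool.Agent.Y110.FJ
open Pool.Agent.N509.TK (Good Tv Tq qa sm sm_spec sm_eq sm_adj Sb mem_Sb LR Cyl cy dt lk hedges)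
open Pool.Agent.N509.TX (AcylF C_edge)
open Pool.Agent.N431.CE (Es cylF)
open Pool.Agent.R941.FJ (C_equiv C_le)

variable {C : ∀ (G : Type) [Group G], Prop}
variable {G V : Type} {T : SimpleGraph V} [Group G] [MulAction G V] {R : V → Subgroup G}

section qu

variable {S : Set V} (hT : T.IsTree)
  (hact : ∀ (g : G) (u v : V), T.Adj u v → T.Adj (g • u) (g • v)) (hR : Fm T R) (hS : Tv T R S)
  (N : Subgroup G) [N.Normal] (hN : N = ⨆ v, R v)

include hT hact hR hS hN

theorem q_tq : Tq T N S := by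
  rw [hN]
  exact Tq_of hT hact hR hS

theorem q_mem (hq : Tq T N S) (g : G) (s : S) (h : g • (s : V) = s) :
    sm hq g s = s := sm_eq hq (one_mem _) (by rw [one_smul]; exact h)

theorem q_lift (hq : Tq T N S) (g : G) (s : S) (h : sm hq g s = s) :
    ∃ a ∈ N, (a⁻¹ * g) • (s : V) = s := by
  obtain ⟨a, ha, h1⟩ := sm_spec hq g s
  rw [h] at h1
  exact ⟨a, ha, by rw [mul_smul, h1, inv_smul_smul]⟩

/-- the stabilizers of the edges -/
theorem q_edge (hq : Tq T N S) (g : G) (s t : S) (hst : T.Adj (s : V) t) (h1 : sm hq g s = s)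
    (h2 : sm hq g t = t) : ∃ a ∈ N, (a⁻¹ * g) • (s : V) = s ∧ (a⁻¹ * g) • (t : V) = t := by
  obtain ⟨a, ha, h3⟩ := q_lift hT hact hR hS N hN hq g s h1
  obtain ⟨b, hb, h4⟩ := q_lift hT hact hR hS N hN hq g t h2
  have h5 : (a⁻¹ * g) • (t : V) = (a⁻¹ * b) • (t : V) := by
    have h6 : a⁻¹ * g = (a⁻¹ * b) * (b⁻¹ * g) := by group
    rw [h6, mul_smul, h4]
  have h6 : T.Adj (s : V) ((a⁻¹ * g) • (t : V)) := by
    have := hact (a⁻¹ * g) _ _ hst
    rwa [h3] at this
  obtain ⟨u, hu, _, r, hr, hru⟩ := hS.max s s.2 _ h6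
  have hrN : r ∈ N := by
    rw [hN]
    exact le_iSup R _ hr
  have h7 : u = t := by
    rw [h5] at hru
    refine hq.trans ((a⁻¹ * b)⁻¹ * r)
      (mul_mem (inv_mem (mul_mem (inv_mem ha) hb)) hrN) u hu t t.2 ?_
    rw [mul_smul, hru, inv_smul_smul]
  subst h7
  refine ⟨a * r, mul_mem ha hrN, ?_, ?_⟩
  · rw [mul_inv_rev, mul_assoc, mul_smul, h3, inv_smul_eq_iff, hR.fix _ r hr]
  · rw [mul_inv_rev, mul_assoc, mul_smul, ← hru, inv_smul_smul]

theorem q_stab : ∀ v, ∀ x ∈ N, x • v = v → x ∈ R v := by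
  intro v x hx h
  rw [hN] at hx
  exact stab hT hact hR hx h

theorem q_le (v : V) : R v ≤ N := by
  rw [hN]
  exact le_iSup R v

/-- the stabilizers of the vertices are in `C` -/
theorem q_C (hC : ClosedE C) (hq : Tq T N S)
    (hQ : ∀ v, ∃ (Q : Type) (_ : Group Q) (π : MulAction.stabilizer G v →* Q), C Q ∧
      ∀ x, π x = 1 ↔ (x : G) ∈ R v) (s : S) :
    letI := qa hq; C ↥(MulAction.stabilizer (G ⧸ N) s) := by
  letI := qa hq
  let φ : MulAction.stabilizer G (s : V) →* MulAction.stabilizer (G ⧸ N) s :=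
    ((QuotientGroup.mk' N).comp (Subgroup.subtype _)).codRestrict _
      (fun x => q_mem hT hact hR hS N hN hq x s x.2)
  have hφ : Function.Surjective φ := by
    rintro ⟨q, hq'⟩
    obtain ⟨g, rfl⟩ := QuotientGroup.mk_surjective q
    obtain ⟨a, ha, h1⟩ := q_lift hT hact hR hS N hN hq g s hq'
    refine ⟨⟨a⁻¹ * g, h1⟩, Subtype.ext ?_⟩
    show ((a⁻¹ * g : G) : G ⧸ N) = (g : G ⧸ N)
    rw [QuotientGroup.mk_mul, (QuotientGroup.eq_one_iff a⁻¹).2 (inv_mem ha), one_mul]
  obtain ⟨Q, _, π, hCQ, hπ⟩ := hQ (s : V)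
  have hker : φ.ker = π.ker := by
    ext x
    rw [MonoidHom.mem_ker, MonoidHom.mem_ker, hπ, ← Subtype.coe_inj]
    show ((x : G) : G ⧸ N) = 1 ↔ _
    rw [QuotientGroup.eq_one_iff]
    exact ⟨fun h => q_stab hT hact hR hS N hN _ _ h x.2, fun h => q_le hT hact hR hS N hN _ h⟩
  refine C_equiv hC.base (QuotientGroup.quotientKerEquivOfSurjective φ hφ).symm ?_
  refine C_equiv hC.base (QuotientGroup.quotientMulEquivOfEq hker) ?_
  exact hC.base.of_injective _ _ (QuotientGroup.kerLift π) (QuotientGroup.kerLift_injective π) hCQ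

end qu

/-- **the relative theorem**: for each edge a homomorphism -/
theorem rel (hC : ClosedE C) (hM : ∀ (G : Type) [Group G], derivedSeries G 2 = ⊥ → C G)
    (hT : T.IsTree) (hact : ∀ (g : G) (u v : V), T.Adj u v → T.Adj (g • u) (g • v)) (hR : Fm T R)
    (hQ : ∀ v, ∃ (Q : Type) (_ : Group Q) (π : MulAction.stabilizer G v →* Q), C Q ∧
      ∀ x, π x = 1 ↔ (x : G) ∈ R v)
    (hE : ∀ v u, T.Adj v u → ∃ (P : Type) (_ : Group P) (f : G →* P), C P ∧
      (∀ w, ∀ x ∈ R w, f x = 1) ∧ ∀ x : G, x • v = v → x • u = u →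
        x ∈ ⁅Sb f.ker v, Sb f.ker v⁆ ⊔ R v → x ∈ R v)
    (N : Subgroup G) [hn : N.Normal] (hN : N = ⨆ v, R v) : C (G ⧸ N) := by
  obtain ⟨S, hS⟩ := Tv.exists (R := R) hT
  have hq := q_tq hT hact hR hS N hN
  letI := qa hq
  refine hedges (T := T.induce S) hC hM (hq.isTree hT) ?_ (fun s => q_C hT hact hR hS N hN hC hq hQ s) ?_
  · intro q s t hst
    obtain ⟨g, rfl⟩ := QuotientGroup.mk_surjective q
    exact sm_adj hact hq g s t hst
  · intro s t hst
    obtain ⟨P, _, f, hP, hfR, hf⟩ := hE s t hst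
    have hfN : ∀ h ∈ N, f h = 1 := by
      intro h hh
      rw [hN] at hh
      have h1 : (⨆ v, R v) ≤ f.ker := iSup_le fun v x hx => hfR v x hx
      exact h1 hh
    refine ⟨P, _, QuotientGroup.lift N f hfN, hP, ?_⟩
    intro q hqs hqt hqc
    obtain ⟨g, rfl⟩ := QuotientGroup.mk_surjective q
    obtain ⟨a, ha, h1, h2⟩ := q_edge hT hact hR hS N hN hq g s t hst hqs hqt
    have hag : ((a⁻¹ * g : G) : G ⧸ N) = (g : G ⧸ N) := by
      rw [QuotientGroup.mk_mul, (QuotientGroup.eq_one_iff a⁻¹).2 (inv_mem ha), one_mul]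
    have hle : Sb (QuotientGroup.lift N f hfN).ker s ≤
        (Sb f.ker (s : V)).map (QuotientGroup.mk' N) := by
      rintro q ⟨h3, h4⟩
      obtain ⟨b, rfl⟩ := QuotientGroup.mk_surjective q
      obtain ⟨c, hc, h5⟩ := q_lift hT hact hR hS N hN hq b s h3
      refine ⟨c⁻¹ * b, ⟨h5, ?_⟩, ?_⟩
      · have h6 : f b = 1 := h4
        show f (c⁻¹ * b) = 1
        rw [map_mul, map_inv, hfN c hc, h6, inv_one, one_mul]
      · show ((c⁻¹ * b : G) : G ⧸ N) = (b : G ⧸ N)
        rw [QuotientGroup.mk_mul, (QuotientGroup.eq_one_iff c⁻¹).2 (inv_mem hc), one_mul]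
    have h3 := Subgroup.commutator_mono hle hle hqc
    rw [← Subgroup.map_commutator] at h3
    obtain ⟨c, hc, hcg⟩ := h3
    have hc' : (c : G) ∈ ⁅Sb f.ker (s : V), Sb f.ker (s : V)⁆ := hc
    have hcg' : ((c : G) : G ⧸ N) = ((a⁻¹ * g : G) : G ⧸ N) := hcg.trans hag.symm
    have h4 : c⁻¹ * (a⁻¹ * g) ∈ N := QuotientGroup.eq.1 hcg'
    have hcs : c • (s : V) = s := (Subgroup.commutator_le_self _ hc').1
    have h5 : c⁻¹ * (a⁻¹ * g) ∈ R (s : V) := by
      refine q_stab hT hact hR hS N hN _ _ h4 ?_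
      rw [mul_smul, h1, inv_smul_eq_iff, hcs]
    have h6 : a⁻¹ * g ∈ R (s : V) := by
      refine hf _ h1 h2 ?_
      have h7 := mul_mem (Subgroup.mem_sup_left (T := R (s : V)) hc') (Subgroup.mem_sup_right h5)
      rwa [mul_inv_cancel_left] at h7
    rw [← hag]
    exact (QuotientGroup.eq_one_iff _).2 (q_le hT hact hR hS N hN _ h6)

/-- **the relative theorem**: the members of the family have a bounded index in the edge groups -/
theorem relF (hC : ClosedE C) (hA : AcylF C)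
    (hT : T.IsTree) (hact : ∀ (g : G) (u v : V), T.Adj u v → T.Adj (g • u) (g • v)) (hR : Fm T R)
    (hQ : ∀ v, ∃ (Q : Type) (_ : Group Q) (π : MulAction.stabilizer G v →* Q), C Q ∧
      ∀ x, π x = 1 ↔ (x : G) ∈ R v) (m : ℕ)
    (hE : ∀ v u, T.Adj v u → (R v).relIndex (Es G v u) ≠ 0 ∧ (R v).relIndex (Es G v u) ≤ m)
    (N : Subgroup G) [hn : N.Normal] (hN : N = ⨆ v, R v) : C (G ⧸ N) := by
  classical
  obtain ⟨S, hS⟩ := Tv.exists (R := R) hT
  have hq := q_tq hT hact hR hS N hN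
  letI := qa hq
  have hact' : ∀ (q : G ⧸ N) (s t : S), (T.induce S).Adj s t → (T.induce S).Adj (q • s) (q • t) := by
    intro q s t hst
    obtain ⟨g, rfl⟩ := QuotientGroup.mk_surjective q
    exact sm_adj hact hq g s t hst
  have hr : LR (G ⧸ N) (T.induce S) (fun _ a b => a = b) :=
    ⟨fun _ _ _ => rfl, fun _ _ _ _ _ h => h.symm, fun _ _ _ _ _ _ _ h h' => h.trans h',
      fun g _ _ _ h => by rw [h]⟩
  refine cylF hC hA (hq.isTree hT) hact' hr m ?_ (fun s => q_C hT hact hR hS N hN hC hq hQ s) ?_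
  · intro w a b hwa hwb _ F hF
    obtain ⟨h0, hm⟩ := hE w a hwa
    refine le_trans ?_ hm
    -- lift the elements of `F`
    have hlift : ∀ q ∈ F, ∃ g : G, (g : G ⧸ N) = q ∧ g ∈ Es G (w : V) a := by
      intro q hqF
      obtain ⟨g, rfl⟩ := QuotientGroup.mk_surjective q
      obtain ⟨h1, h2, _⟩ := hF _ hqF
      obtain ⟨c, hc, h3, h4⟩ := q_edge hT hact hR hS N hN hq g w a hwa h1 h2
      refine ⟨c⁻¹ * g, ?_, h3, h4⟩
      rw [QuotientGroup.mk_mul, (QuotientGroup.eq_one_iff c⁻¹).2 (inv_mem hc), one_mul]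
    choose! l hl1 hl2 using hlift
    have hfin : Finite (Es G (w : V) a ⧸ (R (w : V)).subgroupOf (Es G (w : V) a)) :=
      (Nat.finite_of_card_ne_zero h0)
    have := Fintype.ofFinite (Es G (w : V) a ⧸ (R (w : V)).subgroupOf (Es G (w : V) a))
    have h5 : F.card ≤ Fintype.card (Es G (w : V) a ⧸ (R (w : V)).subgroupOf (Es G (w : V) a)) := by
      rw [← Finset.card_attach]
      refine Finset.card_le_card_of_injOn (fun q => (QuotientGroup.mk
        (⟨l q.1, hl2 q.1 q.2⟩ : Es G (w : V) a))) (fun _ _ => Finset.mem_univ _) ?_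
      intro x _ y _ hxy
      have hxy := QuotientGroup.eq.1 hxy
      rw [Subgroup.mem_subgroupOf] at hxy
      have h6 : (l x.1)⁻¹ * l y.1 ∈ N := q_le hT hact hR hS N hN _ hxy
      apply Subtype.ext
      rw [← hl1 x.1 x.2, ← hl1 y.1 y.2]
      exact QuotientGroup.eq.2 h6
    refine h5.trans_eq ?_
    rw [← Nat.card_eq_fintype_card]
    rfl
  · intro y K hK
    obtain ⟨⟨⟨v0, a0⟩, h0⟩, hy⟩ := Quotient.exists_rep y
    have h0 : (T.induce S).Adj v0 a0 := h0
    have hy : cy (fun _ a b => a = b) h0 = y := hy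
    have hgen : ∀ p q : Pool.Agent.N509.TK.Dt (T.induce S),
        Relation.EqvGen (lk (T.induce S) (fun _ a b => a = b)) p q → q.1 = p.1 ∨ q.1 = p.1.swap := by
      intro p q h
      induction h with
      | rel x y h =>
        rcases h with h | ⟨h1, h2⟩
        · exact Or.inr h
        · exact Or.inl (Prod.ext h1.symm h2.symm)
      | refl x => exact Or.inl rfl
      | symm x y _ ih =>
        rcases ih with h | h
        · exact Or.inl h.symm
        · right
          rw [h, Prod.swap_swap]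
      | trans x y z _ _ ih1 ih2 =>
        rcases ih1 with h | h <;> rcases ih2 with h' | h'
        · exact Or.inl (h'.trans h)
        · right
          rw [h', h]
        · right
          rw [h', h]
        · left
          rw [h', h, Prod.swap_swap]
    refine C_edge hC v0 a0 (q_C hT hact hR hS N hN hC hq hQ v0) K fun g hg => ?_
    have h1 := hK g hg v0 a0 h0 hy
    rw [← hy] at h1
    rcases hgen (dt h0) (dt (hact' g v0 a0 h0)) (Quotient.exact h1.symm) with h | h
    · exact Or.inl ⟨congrArg Prod.fst h, congrArg Prod.snd h⟩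
    · exact Or.inr ⟨congrArg Prod.fst h, congrArg Prod.snd h⟩

end Pool.Agent.T2h60.CY
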