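import Pool.Agent.T2h60.CY.Rel

/-!
# Towers
-/

set_option autoImplicit false
set_option linter.unusedSectionVars false

namespace Pool.Agent.T2h60.CY

open SimpleGraph
open scoped commutatorElement
open Pool.Agent.Y110.FJ
open Pool.Agent.N509.TK
open Pool.Agent.N509.TX (AcylF C_edge)
open Pool.Agent.N431.CE (Es cylF)
open Pool.Agent.R941.FJ (C_equiv C_le)

variable {C : ∀ (G : Type) [Group G], Prop}

/-- towers, for one action -/
structure TowA (C : ∀ (G : Type) [Group G], Prop) {G V : Type} [Group G] [MulAction G V]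
    (T : SimpleGraph V) (n : ℕ) (R : ℕ → V → Subgroup G) : Prop where
  fm : ∀ j ≤ n, Fm T (R j)
  mono : ∀ j < n, ∀ v, R j v ≤ R (j + 1) v
  bot : ∀ v, R 0 v = ⊥
  quo : ∀ j ≤ n, ∀ v, ∃ (Q : Type) (_ : Group Q) (π : MulAction.stabilizer G v →* Q), C Q ∧
    ∀ x, π x = 1 ↔ (x : G) ∈ R j v
  stp : ∀ j < n, ∀ v u, T.Adj v u → ∃ (P : Type) (_ : Group P) (f : G →* P), C P ∧
    (∀ w, ∀ x ∈ R j w, f x = 1) ∧ ∀ x : G, x • v = v → x • u = u →
      x ∈ ⁅R (j + 1) v ⊓ f.ker, R (j + 1) v ⊓ f.ker⁆ ⊔ R j v → x ∈ R j v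
  top : (∀ v u, T.Adj v u → ∃ (P : Type) (_ : Group P) (f : G →* P), C P ∧
      (∀ w, ∀ x ∈ R n w, f x = 1) ∧ ∀ x : G, x • v = v → x • u = u →
        x ∈ ⁅Sb f.ker v, Sb f.ker v⁆ ⊔ R n v → x ∈ R n v) ∨
    ∃ m : ℕ, ∀ v u, T.Adj v u →
      (R n v).relIndex (Es G v u) ≠ 0 ∧ (R n v).relIndex (Es G v u) ≤ m

theorem TowA.C_of {G V : Type} [Group G] [MulAction G V] {T : SimpleGraph V} {n : ℕ}
    {R : ℕ → V → Subgroup G} (hC : ClosedE C)
    (hM : ∀ (G : Type) [Group G], derivedSeries G 2 = ⊥ → C G)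
    (hA : AcylF C) (hT : T.IsTree) (hact : ∀ (g : G) (u v : V), T.Adj u v → T.Adj (g • u) (g • v))
    (h : TowA C T n R) : C G := by
  have key : ∀ k, k ≤ n → ∀ (N : Subgroup G) (_ : N.Normal), N = (⨆ v, R (n - k) v) →
      C (G ⧸ N) := by
    intro k
    induction k with
    | zero =>
      intro _ N hn hN
      rw [Nat.sub_zero] at hN
      rcases h.top with h1 | ⟨m, h1⟩
      · exact rel hC hM hT hact (h.fm n le_rfl) (h.quo n le_rfl) h1 N hN
      · exact relF hC hA hT hact (h.fm n le_rfl) (h.quo n le_rfl) m h1 N hN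
    | succ k ih =>
      intro hk N hn hN
      obtain ⟨j, hj⟩ : ∃ j, j = n - (k + 1) := ⟨_, rfl⟩
      have hj1 : n - k = j + 1 := by omega
      have hjn : j < n := by omega
      rw [← hj] at hN
      rw [hj1] at ih
      obtain ⟨M, hM'⟩ : ∃ M : Subgroup G, M = ⨆ v, R (j + 1) v := ⟨_, rfl⟩
      have hMn : M.Normal := by
        rw [hM']
        exact (h.fm (j + 1) hjn).normal
      have hCM : C (G ⧸ M) := ih (by omega) M hMn hM'
      refine rel hC hM hT hact (h.fm j hjn.le) (h.quo j hjn.le) ?_ N hN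
      intro v u hvu
      obtain ⟨P, _, f, hP, hf1, hf2⟩ := h.stp j hjn v u hvu
      refine ⟨_, _, (QuotientGroup.mk' M).prod f, hC.base.prod _ _ hCM hP, ?_, ?_⟩
      · intro w x hx
        refine Prod.ext ?_ (hf1 w x hx)
        refine (QuotientGroup.eq_one_iff x).2 ?_
        rw [hM']
        exact le_iSup (R (j + 1)) w (h.mono j hjn w hx)
      · intro x hxv hxu hx
        refine hf2 x hxv hxu ?_
        have hle : Sb ((QuotientGroup.mk' M).prod f).ker v ≤ R (j + 1) v ⊓ f.ker := by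
          rintro y ⟨h1, h2⟩
          have h3 : y ∈ M := (QuotientGroup.eq_one_iff y).1 (congrArg Prod.fst h2)
          have h4 : f y = 1 := congrArg Prod.snd h2
          refine ⟨?_, h4⟩
          rw [hM'] at h3
          exact stab hT hact (h.fm (j + 1) hjn) h3 h1
        exact sup_le_sup (Subgroup.commutator_mono hle hle) le_rfl hx
  have h1 := key n le_rfl ⊥ inferInstance (by
    rw [Nat.sub_self]
    refine (iSup_eq_bot.2 fun v => h.bot v).symm)
  exact C_equiv hC.base (QuotientGroup.quotientBot (G := G)).symm h1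

section relative

variable {G V : Type} [Group G] [MulAction G V]

/-- the homology condition at the edge `(v, u)`, relative to the family `R`, for the subgroup `S` of the
stabilizer of `v` -/
def Hc (C : ∀ (G : Type) [Group G], Prop) (K : Subgroup G) (X : Set V) (R : V → Subgroup G)
    (S : Subgroup G) (v u : V) : Prop :=
  ∃ (P : Type) (_ : Group P) (f : K →* P), C P ∧
    (∀ w ∈ X, ∀ x : K, (x : G) ∈ R w → f x = 1) ∧
    ∀ x : K, (x : G) • v = v → (x : G) • u = u →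
      (x : G) ∈ ⁅S ⊓ f.ker.map K.subtype, S ⊓ f.ker.map K.subtype⁆ ⊔ R v → (x : G) ∈ R v

/-- towers of families of subgroups of the stabilizers of the vertices in `X`, for the action of the
subgroup `K` -/
structure Tow (C : ∀ (G : Type) [Group G], Prop) (T : SimpleGraph V) (K : Subgroup G) (X : Set V)
    (n : ℕ) (R : ℕ → V → Subgroup G) : Prop where
  fix : ∀ j ≤ n, ∀ v ∈ X, ∀ x ∈ R j v, x ∈ K ∧ x • v = v
  eqv : ∀ j ≤ n, ∀ g ∈ K, ∀ v ∈ X, g • v ∈ X → ∀ x ∈ R j v, g * x * g⁻¹ ∈ R j (g • v)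
  edg : ∀ j ≤ n, ∀ u ∈ X, ∀ v ∈ X, T.Adj u v → ∀ x ∈ R j v, x • u = u → x ∈ R j u
  mono : ∀ j < n, ∀ v ∈ X, R j v ≤ R (j + 1) v
  bot : ∀ v ∈ X, R 0 v = ⊥
  quo : ∀ j ≤ n, ∀ v ∈ X, ∃ (Q : Type) (_ : Group Q)
    (π : ↥(K ⊓ MulAction.stabilizer G v) →* Q), C Q ∧ ∀ x, π x = 1 ↔ (x : G) ∈ R j v
  stp : ∀ j < n, ∀ v ∈ X, ∀ u ∈ X, T.Adj v u → Hc C K X (R j) (R (j + 1) v) v u
  top : (∀ v ∈ X, ∀ u ∈ X, T.Adj v u → Hc C K X (R n) (MulAction.stabilizer G v) v u) ∨
    ∃ m : ℕ, ∀ v ∈ X, ∀ u ∈ X, T.Adj v u →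
      (R n v).relIndex (K ⊓ Es G v u) ≠ 0 ∧ (R n v).relIndex (K ⊓ Es G v u) ≤ m

theorem Hc.sub {K K' : Subgroup G} (hKK : K' ≤ K) {X : Set V} {R : V → Subgroup G}
    {S : Subgroup G} {v u : V} (h : Hc C K X R S v u) :
    ∃ (P : Type) (_ : Group P) (f : K' →* P), C P ∧
      (∀ w : X, ∀ x ∈ (R w).comap K'.subtype, f x = 1) ∧
      ∀ x : K', (x : G) • v = v → (x : G) • u = u →
        ∀ S' : Subgroup K', (∀ y ∈ S', (y : G) ∈ S ∧ f y = 1) →
          x ∈ ⁅S', S'⁆ ⊔ (R v).comap K'.subtype → x ∈ (R v).comap K'.subtype := by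
  obtain ⟨P, _, f, hP, h1, h2⟩ := h
  refine ⟨P, _, f.comp (Subgroup.inclusion hKK), hP, ?_, ?_⟩
  · intro w x hx
    exact h1 w w.2 (Subgroup.inclusion hKK x) hx
  · intro x hxv hxu S' hS' hx
    refine h2 (Subgroup.inclusion hKK x) hxv hxu ?_
    have hle : S'.map K'.subtype ≤ S ⊓ f.ker.map K.subtype := by
      rintro _ ⟨y, hy, rfl⟩
      exact ⟨(hS' y hy).1, Subgroup.inclusion hKK y, (hS' y hy).2, rfl⟩
    have h3 : (x : G) ∈ (⁅S', S'⁆ ⊔ (R v).comap K'.subtype).map K'.subtype := ⟨x, hx, rfl⟩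
    rw [Subgroup.map_sup, Subgroup.map_commutator] at h3
    exact sup_le_sup (Subgroup.commutator_mono hle hle) (Subgroup.map_comap_le _ _) h3

/-- groups with a tower on a subtree -/
theorem Tow.C_of {T : SimpleGraph V} {K : Subgroup G} {X : Set V} {n : ℕ}
    {R : ℕ → V → Subgroup G} (hC : ClosedE C)
    (hM : ∀ (G : Type) [Group G], derivedSeries G 2 = ⊥ → C G)
    (hA : AcylF C) (hT : T.IsTree) (hact : ∀ (g : G) (u v : V), T.Adj u v → T.Adj (g • u) (g • v))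
    (h : Tow C T K X n R) (hne : X.Nonempty)
    (hcv : ∀ v ∈ X, ∀ u ∈ X, ∀ p : T.Walk v u, p.IsPath → ∀ z ∈ p.support, z ∈ X)
    (K' : Subgroup G) (hKK : K' ≤ K) (hX : ∀ g ∈ K', ∀ v ∈ X, g • v ∈ X) : C K' := by
  let _ : MulAction K' X :=
    { smul := fun g v => ⟨(g : G) • (v : V), hX g g.2 v v.2⟩
      one_smul := fun v => Subtype.ext (one_smul G (v : V))
      mul_smul := fun g h v => Subtype.ext (mul_smul (g : G) (h : G) (v : V)) }
  have hsm : ∀ (g : K') (v : X), ((g • v : X) : V) = (g : G) • (v : V) := fun _ _ => rfl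
  have hsme : ∀ (g : K') (v : X), g • v = v ↔ (g : G) • (v : V) = v :=
    fun g v => ⟨fun h => congrArg Subtype.val h, fun h => Subtype.ext h⟩
  have htree : (T.induce X).IsTree := by
    refine ⟨?_, hT.isAcyclic.induce _⟩
    have : Nonempty X := hne.to_subtype
    refine ⟨fun v u => ?_⟩
    obtain ⟨p, hp, -⟩ := hT.existsUnique_path (v : V) (u : V)
    exact ⟨p.induce _ (hcv v v.2 u u.2 p hp)⟩
  refine TowA.C_of (G := K') (V := X) (T := T.induce X) (n := n)
    (R := fun j v => (R j v).comap K'.subtype) hC hM hA htree (fun g u v h => hact g u v h) ?_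
  refine ⟨?_, ?_, ?_, ?_, ?_, ?_⟩
  · intro j hj
    refine ⟨?_, ?_, ?_⟩
    · intro v r hr
      exact Subtype.ext (h.fix j hj v v.2 _ hr).2
    · intro g v r hr
      exact h.eqv j hj g (hKK g.2) v v.2 (hX g g.2 v v.2) _ hr
    · intro u v huv r hr hru
      exact h.edg j hj u u.2 v v.2 huv _ hr (congrArg Subtype.val hru)
  · intro j hj v
    exact Subgroup.comap_mono (h.mono j hj v v.2)
  · intro v
    show (R 0 v).comap K'.subtype = ⊥
    rw [h.bot v v.2, MonoidHom.comap_bot, Subgroup.ker_subtype]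
  · intro j hj v
    obtain ⟨Q, _, π, hQ, hπ⟩ := h.quo j hj v v.2
    let i : MulAction.stabilizer K' v →* ↥(K ⊓ MulAction.stabilizer G (v : V)) :=
      (K'.subtype.comp (Subgroup.subtype _)).codRestrict _
        (fun x => ⟨hKK x.1.2, congrArg Subtype.val x.2⟩)
    exact ⟨Q, _, π.comp i, hQ, fun x => hπ (i x)⟩
  · intro j hj v u hvu
    obtain ⟨P, _, f, hP, h1, h2⟩ := (h.stp j hj v v.2 u u.2 hvu).sub hKK
    refine ⟨P, _, f, hP, h1, fun x hxv hxu hx => ?_⟩
    exact h2 x (congrArg Subtype.val hxv) (congrArg Subtype.val hxu)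
      ((R (j + 1) v).comap K'.subtype ⊓ f.ker) (fun y hy => ⟨hy.1, hy.2⟩) hx
  · rcases h.top with h1 | ⟨m, h1⟩
    · left
      intro v u hvu
      obtain ⟨P, _, f, hP, h2, h3⟩ := (h1 v v.2 u u.2 hvu).sub hKK
      refine ⟨P, _, f, hP, h2, fun x hxv hxu hx => ?_⟩
      exact h3 x (congrArg Subtype.val hxv) (congrArg Subtype.val hxu) (Sb f.ker v)
        (fun y hy => ⟨congrArg Subtype.val hy.1, hy.2⟩) hx
    · refine Or.inr ⟨m, fun v u hvu => ?_⟩
      obtain ⟨h2, h3⟩ := h1 v v.2 u u.2 hvu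
      have h4 : ((R n v).comap K'.subtype).relIndex (Es K' v u) =
          (R n v).relIndex ((Es K' v u).map K'.subtype) := Subgroup.relIndex_comap _ _ _
      have h5 : (Es K' v u).map K'.subtype ≤ K ⊓ Es G (v : V) u := by
        rintro _ ⟨y, hy, rfl⟩
        exact ⟨hKK y.2, congrArg Subtype.val hy.1, congrArg Subtype.val hy.2⟩
      show ((R n v).comap K'.subtype).relIndex (Es K' v u) ≠ 0 ∧
        ((R n v).comap K'.subtype).relIndex (Es K' v u) ≤ m
      rw [h4]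
      have h6 := Subgroup.relIndex_le_of_le_right h5 h2
      refine ⟨?_, h6.trans h3⟩
      exact fun h7 => h2 (Subgroup.relIndex_eq_zero_of_le_right h5 h7)

end relative

end Pool.Agent.T2h60.CY
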