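import Pool.Agent.N509.TK.Tq

/-!
# Families of subgroups fixing vertices of a tree

`R v` is a subgroup of the stabilizer of `v`, and an element of `R v` which fixes a neighbour `u` of
`v` is in `R u`. The group generated by the family has the stabilizers `R v`, and there is a subtree
which is a transversal for it.
-/

set_option autoImplicit false
set_option linter.unusedSectionVars false

namespace Pool.Agent.T2h60.CY

open SimpleGraph
open Pool.Agent.N509.TK (Good Tv Tq St St_adj St_smul St_trans Ix le_Ix)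

variable {G V : Type} {T : SimpleGraph V} [Group G] [MulAction G V] {R : V → Subgroup G} {S : Set V}

/-- an equivariant family of subgroups fixing vertices, compatible along the edges -/
structure Fm (T : SimpleGraph V) (R : V → Subgroup G) : Prop where
  fix : ∀ v, ∀ r ∈ R v, r • v = v
  eqv : ∀ (g : G) (v : V), ∀ r ∈ R v, g * r * g⁻¹ ∈ R (g • v)
  edg : ∀ u v, T.Adj u v → ∀ r ∈ R v, r • u = u → r ∈ R u

/-- products of elements of the family along walks in `S` -/
inductive Wd (T : SimpleGraph V) (R : V → Subgroup G) (S : Set V) : ℕ → V → V → G → Prop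
  | nil (s : V) (r : G) : s ∈ S → r ∈ R s → Wd T R S 0 s s r
  | cons (n : ℕ) (s u t : V) (r x : G) : s ∈ S → T.Adj s u → r ∈ R s → Wd T R S n u t x →
      Wd T R S (n + 1) s t (r * x)

theorem Wd.mem {n : ℕ} {s t : V} {x : G} (h : Wd T R S n s t x) : s ∈ S := by
  cases h with
  | nil _ _ h _ => exact h
  | cons _ _ _ _ _ _ h _ _ _ => exact h

theorem Wd.mul_left {n : ℕ} {s t : V} {x r : G} (h : Wd T R S n s t x) (hr : r ∈ R s) :
    Wd T R S n s t (r * x) := by
  cases h with
  | nil _ r' h h' => exact Wd.nil s _ h (mul_mem hr h')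
  | cons n _ u _ r' x h h1 h2 h3 =>
    rw [← mul_assoc]
    exact Wd.cons n s u t _ x h h1 (mul_mem hr h2) h3

theorem Wd.append {n : ℕ} {s t : V} {x : G} (h : Wd T R S n s t x) {m : ℕ} {t' : V} {y : G}
    (h' : Wd T R S m t t' y) : ∃ k, Wd T R S k s t' (x * y) := by
  induction h with
  | nil s r h1 h2 => exact ⟨m, h'.mul_left h2⟩
  | cons n s u t r x h1 h2 h3 h4 ih =>
    obtain ⟨k, hk⟩ := ih h'
    refine ⟨k + 1, ?_⟩
    rw [mul_assoc]
    exact Wd.cons k s u t' r _ h1 h2 h3 hk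

theorem Wd.walk {s t : V} (p : T.Walk s t) (hp : ∀ z ∈ p.support, z ∈ S) :
    ∃ n, Wd T R S n s t (1 : G) := by
  induction p with
  | nil => exact ⟨0, Wd.nil _ _ (hp _ (by simp)) (one_mem _)⟩
  | @cons s u t h p ih =>
    obtain ⟨n, hn⟩ := ih fun z hz => hp z (by simp [hz])
    refine ⟨n + 1, ?_⟩
    have := Wd.cons n s u t 1 1 (hp s (by simp)) h (one_mem (R s)) hn
    rwa [one_mul] at this

theorem Wd.exists (hS : Good T R S) {x : G} (hx : x ∈ ⨆ i : Ix R S, R i.1) {s t : V} (hs : s ∈ S)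
    (ht : t ∈ S) : ∃ n, Wd T R S n s t x := by
  have hw : ∀ s ∈ S, ∀ t ∈ S, ∃ n, Wd T R S n s t (1 : G) := by
    intro s hs t ht
    obtain ⟨p, hp⟩ := hS.cvx s hs t ht
    exact Wd.walk p hp
  revert s t
  induction hx using Subgroup.iSup_induction' with
  | hp i x hx =>
    intro s t hs ht
    obtain ⟨n, hn⟩ := hw s hs i.1 i.2.1
    obtain ⟨m, hm⟩ := hw i.1 i.2.1 t ht
    have h1 : Wd T R S m i.1 t (x * 1) := hm.mul_left hx
    obtain ⟨k, hk⟩ := hn.append h1
    rw [mul_one, one_mul] at hk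
    exact ⟨k, hk⟩
  | h1 =>
    intro s t hs ht
    exact hw s hs t ht
  | hmul x y _ _ ihx ihy =>
    intro s t hs ht
    obtain ⟨n, hn⟩ := ihx hs hs
    obtain ⟨m, hm⟩ := ihy hs ht
    exact hn.append hm

/-- a product along a walk of minimal length moves away -/
theorem Wd.step (hT : T.IsTree) (hact : ∀ (g : G) (u v : V), T.Adj u v → T.Adj (g • u) (g • v))
    (hR : Fm T R) (hS : Good T R S) : ∀ (n : ℕ) (s t : V) (x : G), Wd T R S (n + 1) s t x →
      (∀ m < n + 1, ¬ Wd T R S m s t x) →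
      ∃ (u : V) (r y : G), u ∈ S ∧ T.Adj s u ∧ r ∈ R s ∧ Wd T R S n u t y ∧ x = r * y ∧
        St T s (r • u) (x • t) := by
  have hadj : ∀ (s u : V) (r : G), T.Adj s u → r ∈ R s → T.Adj s (r • u) := by
    intro s u r h hr
    have h1 := hact r s u h
    rwa [hR.fix s r hr] at h1
  intro n
  induction n with
  | zero =>
    intro s t x h _
    cases h with
    | cons _ _ u _ r y h1 h2 h3 h4 =>
      cases h4 with
      | nil _ _ h5 h6 =>
        refine ⟨_, r, y, h5, h2, h3, Wd.nil _ _ h5 h6, rfl, ?_⟩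
        rw [mul_smul, hR.fix _ y h6]
        exact St_adj (hadj s _ r h2 h3)
  | succ n ih =>
    intro s t x h hmin
    cases h with
    | cons _ _ u _ r y h1 h2 h3 h4 =>
      refine ⟨u, r, y, h4.mem, h2, h3, h4, rfl, ?_⟩
      obtain ⟨w, r', z, hw, hw1, hr', hz, rfl, hst⟩ := ih u t y h4 fun m hm h5 =>
        hmin (m + 1) (by omega) (Wd.cons m s u t r y h1 h2 h3 h5)
      have h5 : r' • w ≠ s := by
        intro h6
        have h7 : w = s := hS.lc u h4.mem w hw s h1 hw1 h2.symm r' hr' h6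
        subst h7
        have h8 : r' ∈ R w := hR.edg w u hw1.symm r' hr' h6
        refine hmin n (by omega) ?_
        rw [← mul_assoc]
        exact hz.mul_left (mul_mem h3 h8)
      have h6 : St T s u ((r' * z) • t) := St_trans hT hst (St_adj h2.symm) h5 (St_adj h2)
      have h7 := St_smul hact r h6
      rw [hR.fix s r h3] at h7
      rwa [mul_smul]

theorem Wd.fin (hT : T.IsTree) (hact : ∀ (g : G) (u v : V), T.Adj u v → T.Adj (g • u) (g • v))
    (hR : Fm T R) (hS : Good T R S) {x : G} (hx : x ∈ ⨆ i : Ix R S, R i.1) {s s' : V} (hs : s ∈ S)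
    (hs' : s' ∈ S) (h : x • s = s') : s = s' ∧ x ∈ R s := by
  classical
  have h1 := Wd.exists (R := R) hS hx hs' hs
  have h2 := Nat.find_spec h1
  have h3 : ∀ m < Nat.find h1, ¬ Wd T R S m s' s x := fun m hm => Nat.find_min h1 hm
  cases h4 : Nat.find h1 with
  | zero =>
    rw [h4] at h2
    cases h2 with
    | nil _ _ h5 h6 => exact ⟨rfl, h6⟩
  | succ n =>
    rw [h4] at h2 h3
    obtain ⟨u, r, y, _, _, _, _, _, h5⟩ := Wd.step hT hact hR hS n s' s x h2 h3
    rw [h] at h5
    exact absurd rfl h5.ne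

/-- the group is generated by the members of the family at the transversal -/
theorem sup (hT : T.IsTree) (hact : ∀ (g : G) (u v : V), T.Adj u v → T.Adj (g • u) (g • v))
    (hR : Fm T R) (hS : Tv T R S) : (⨆ i : Ix R S, R i.1) = ⨆ v, R v := by
  apply le_antisymm
  · exact iSup_le fun i => le_iSup R i.1
  · refine iSup_le fun v x hx => ?_
    obtain ⟨h, hh, s, hs, rfl⟩ := hS.cover' hT hact v
    have h1 := hR.eqv h⁻¹ _ x hx
    rw [inv_smul_smul] at h1
    have h2 := le_Ix hs h1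
    have h3 := mul_mem (mul_mem hh h2) (inv_mem hh)
    have h4 : h * (h⁻¹ * x * h⁻¹⁻¹) * h⁻¹ = x := by group
    rwa [h4] at h3

theorem cover (hT : T.IsTree) (hact : ∀ (g : G) (u v : V), T.Adj u v → T.Adj (g • u) (g • v))
    (hR : Fm T R) (hS : Tv T R S) (v : V) : ∃ h ∈ ⨆ v, R v, ∃ s ∈ S, v = h • s := by
  rw [← sup hT hact hR hS]
  exact hS.cover' hT hact v

theorem trans (hT : T.IsTree) (hact : ∀ (g : G) (u v : V), T.Adj u v → T.Adj (g • u) (g • v))
    (hR : Fm T R) (hS : Tv T R S) {x : G} (hx : x ∈ ⨆ v, R v) {s s' : V} (hs : s ∈ S)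
    (hs' : s' ∈ S) (h : x • s = s') : s = s' ∧ x ∈ R s := by
  rw [← sup hT hact hR hS] at hx
  exact Wd.fin hT hact hR hS.toGood hx hs hs' h

/-- the stabilizers of the group generated by the family -/
theorem stab (hT : T.IsTree) (hact : ∀ (g : G) (u v : V), T.Adj u v → T.Adj (g • u) (g • v))
    (hR : Fm T R) {x : G} (hx : x ∈ ⨆ v, R v) {v : V} (h : x • v = v) : x ∈ R v := by
  obtain ⟨S, hS⟩ := Tv.exists (R := R) hT
  obtain ⟨a, ha, s, hs, rfl⟩ := cover hT hact hR hS v
  have h1 : a⁻¹ * x * a ∈ ⨆ v, R v := mul_mem (mul_mem (inv_mem ha) hx) ha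
  have h2 : (a⁻¹ * x * a) • s = s := by rw [mul_smul, mul_smul, h, inv_smul_smul]
  have h3 := (trans hT hact hR hS h1 hs hs h2).2
  have h4 := hR.eqv a s _ h3
  have h5 : a * (a⁻¹ * x * a) * a⁻¹ = x := by group
  rwa [h5] at h4

theorem Tq_of (hT : T.IsTree) (hact : ∀ (g : G) (u v : V), T.Adj u v → T.Adj (g • u) (g • v))
    (hR : Fm T R) (hS : Tv T R S) : Tq T (⨆ v, R v) S where
  ne := hS.ne
  cvx := hS.cvx
  cover := cover hT hact hR hS
  trans h hh s hs s' hs' heq := (trans hT hact hR hS hh hs hs' heq).1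
  max s hs w h := by
    obtain ⟨u, hu, h1, r, hr, h2⟩ := hS.max s hs w h
    exact ⟨u, hu, h1, r, le_iSup R s hr, hR.fix s r hr, h2⟩

theorem Fm.normal (hR : Fm T R) : (⨆ v, R v).Normal := by
  refine ⟨fun x hx g => ?_⟩
  induction hx using Subgroup.iSup_induction' with
  | hp v x hx => exact Subgroup.mem_iSup_of_mem (g • v) (hR.eqv g v x hx)
  | h1 =>
    rw [mul_one, mul_inv_cancel]
    exact one_mem _
  | hmul x y _ _ ihx ihy =>
    have h := mul_mem ihx ihy
    have h1 : g * x * g⁻¹ * (g * y * g⁻¹) = g * (x * y) * g⁻¹ := by group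
    rwa [h1] at h

end Pool.Agent.T2h60.CY
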